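import Pool.Agent.H41.PairInt

/-!
# MP_cecf76_co: pairwise `ε`-intersecting subfamilies of dense set systems

`f n m c ε` (defined in `Pool.Agent.H41.PairIntDefs`) is the function of the problem.

For `0 < ε < c ≤ 1/2` and all `n, m ≥ 1` we show the two-sided bounds
`(c/2) m min(m, 2^n)^(-log(1/c)/log(c/ε)) ≤ f n m c ε ≤ 4 m min(m, 2^(εn/4))^(-ε²/(2 log 2))`.
So `f n m c ε = m * min(m, 2^n)^(-Θ(1))` as a function of `n` and `m`, with a positive exponent
which tends to `0` as `ε → 0`. With `ε ≤ c³` and `m = n` the first bound is the conjectured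
`f(n,n,c,ε) > η n^(1/2)`. The second one shows that `f(n,m,c,ε) ≥ η m` fails for `m < n`.

Lower bound: dependent random choice, with multiplicities. Upper bound: the members are indexed by
0-1 vectors, two of them have small intersection when the vectors are nearly antipodal, and a set
of 0-1 vectors without nearly antipodal pairs is small.
-/

set_option autoImplicit false

namespace Pool.Agent.Results.MP_cecf76_co.PowerBounds

open Pool.Agent.H41.PairInt

theorem result :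
    -- lower bound, for all `n` and `m`
    (∀ c ε : ℝ, 0 < ε → ε < c → c ≤ 1 / 2 → ∀ n m : ℕ, 1 ≤ n → 1 ≤ m →
      c / 2 * (m * (min (m : ℝ) (2 ^ n)) ^ (-(Real.log (1 / c) / Real.log (c / ε))))
        ≤ (f n m c ε : ℝ)) ∧
    -- upper bound, for all `n` and `m`
    (∀ c ε : ℝ, 0 < ε → ε < c → c ≤ 1 / 2 → ∀ n m : ℕ, 1 ≤ n → 1 ≤ m →
      (f n m c ε : ℝ)
        ≤ 4 * (m * (min (m : ℝ) (2 ^ (ε * n / 4))) ^ (-(ε ^ 2 / (2 * Real.log 2))))) ∧
    -- the conjecture `f(n,n,c,ε) > η n^(1/2)`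
    (∀ c : ℝ, 0 < c → c ≤ 1 / 2 → ∀ ε : ℝ, 0 < ε → ε ≤ c ^ 3 →
      ∃ η : ℝ, 0 < η ∧ ∀ n : ℕ, 1 ≤ n → η * Real.sqrt n < (f n n c ε : ℝ)) ∧
    -- there is no linear lower bound, for any large `m < n`
    (∀ c ε : ℝ, 0 < ε → ε < c → c ≤ 1 / 2 → ∀ η : ℝ, 0 < η →
      ∃ M : ℕ, ∀ m : ℕ, M ≤ m → ∀ n : ℕ, m < n → (f n m c ε : ℝ) < η * m) := by
  have low : ∀ c ε : ℝ, 0 < ε → ε < c → c ≤ 1 / 2 → ∀ n m : ℕ, 1 ≤ n → 1 ≤ m →
      c / 2 * (m * (min (m : ℝ) (2 ^ n)) ^ (-(Real.log (1 / c) / Real.log (c / ε))))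
        ≤ (f n m c ε : ℝ) :=
    fun c ε hε hεc hc n m hn hm => lower hε hεc (by linarith) hn hm
  have up : ∀ c ε : ℝ, 0 < ε → ε < c → c ≤ 1 / 2 → ∀ n m : ℕ, 1 ≤ n → 1 ≤ m →
      (f n m c ε : ℝ)
        ≤ 4 * (m * (min (m : ℝ) (2 ^ (ε * n / 4))) ^ (-(ε ^ 2 / (2 * Real.log 2)))) :=
    fun c ε hε hεc hc n m hn hm => upper hε (by linarith) hc hn hm
  refine ⟨low, up, ?_, ?_⟩
  · intro c hc0 hc ε hε hεc
    have hc3 : c ^ 3 < c := by nlinarith [mul_pos hc0 hc0]
    have hεc' : ε < c := lt_of_le_of_lt hεc hc3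
    refine ⟨c / 4, by positivity, fun n hn => ?_⟩
    have h1 := low c ε hε hεc' hc n n hn hn
    have hn0 : (0 : ℝ) < n := by exact_mod_cast hn
    have hn1 : (1 : ℝ) ≤ n := by exact_mod_cast hn
    have hmin : min (n : ℝ) (2 ^ n) = n := by
      apply min_eq_left
      exact_mod_cast (Nat.lt_two_pow_self (n := n)).le
    rw [hmin] at h1
    have hlc : 0 < Real.log (1 / c) := by
      apply Real.log_pos
      rw [lt_div_iff₀ hc0]; linarith
    have h2 : 2 * Real.log (1 / c) ≤ Real.log (c / ε) := by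
      have h3 : (1 / c) ^ 2 ≤ c / ε := by
        rw [one_div, inv_pow, le_div_iff₀ hε, inv_mul_eq_div, div_le_iff₀ (by positivity)]
        calc ε ≤ c ^ 3 := hεc
          _ = c * c ^ 2 := by ring
      have h4 := Real.log_le_log (by positivity) h3
      rw [Real.log_pow] at h4
      exact_mod_cast h4
    have h5 : Real.log (1 / c) / Real.log (c / ε) ≤ 1 / 2 := by
      rw [div_le_iff₀ (by linarith)]; linarith
    have h6 : (n : ℝ) ^ ((1 : ℝ) / 2)
        ≤ n * (n : ℝ) ^ (-(Real.log (1 / c) / Real.log (c / ε))) := by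
      have h8 : n * (n : ℝ) ^ (-(Real.log (1 / c) / Real.log (c / ε)))
          = (n : ℝ) ^ (1 - Real.log (1 / c) / Real.log (c / ε)) := by
        rw [sub_eq_add_neg, Real.rpow_add hn0, Real.rpow_one]
      rw [h8]
      exact Real.rpow_le_rpow_of_exponent_le hn1 (by linarith)
    rw [Real.sqrt_eq_rpow]
    have h7 : 0 < (n : ℝ) ^ ((1 : ℝ) / 2) := by positivity
    calc c / 4 * (n : ℝ) ^ ((1 : ℝ) / 2) < c / 2 * (n : ℝ) ^ ((1 : ℝ) / 2) := by
          apply mul_lt_mul_of_pos_right _ h7; linarith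
      _ ≤ c / 2 * (n * (n : ℝ) ^ (-(Real.log (1 / c) / Real.log (c / ε)))) :=
          mul_le_mul_of_nonneg_left h6 (by positivity)
      _ ≤ _ := h1
  · intro c ε hε hεc hc η hη
    have hlog2 : 0 < Real.log 2 := Real.log_pos (by norm_num)
    set δ := ε ^ 2 / (2 * Real.log 2) with hδ
    have hδ0 : 0 < δ := by positivity
    -- eventually `4 m^(-δ) < η`
    have e1 : ∀ᶠ m : ℕ in Filter.atTop, 4 * (m : ℝ) ^ (-δ) < η := by
      have h1 : Filter.Tendsto (fun m : ℕ => 4 * (m : ℝ) ^ (-δ)) Filter.atTop (nhds (4 * 0)) :=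
        ((tendsto_rpow_neg_atTop hδ0).comp tendsto_natCast_atTop_atTop).const_mul 4
      rw [mul_zero] at h1
      exact h1.eventually_lt_const hη
    -- eventually `m ≤ 2^(εm/4)`
    have e2 : ∀ᶠ m : ℕ in Filter.atTop, (m : ℝ) ≤ 2 ^ (ε * m / 4) := by
      have h1 : Filter.Tendsto (fun m : ℕ => Real.log m / m) Filter.atTop (nhds 0) := by
        have h2 : Filter.Tendsto (fun x : ℝ => Real.log x / x) Filter.atTop (nhds 0) := by
          have := Real.isLittleO_log_id_atTop.tendsto_div_nhds_zero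
          simpa using this
        exact h2.comp tendsto_natCast_atTop_atTop
      have h4 : (0 : ℝ) < ε / 4 * Real.log 2 := by positivity
      filter_upwards [h1.eventually_lt_const h4, Filter.eventually_ge_atTop 1] with m hm hm1
      have hm0 : (0 : ℝ) < m := by exact_mod_cast hm1
      rw [div_lt_iff₀ hm0] at hm
      have h5 : (2 : ℝ) ^ (ε * m / 4) = Real.exp (ε / 4 * Real.log 2 * m) := by
        rw [Real.rpow_def_of_pos (by norm_num)]
        congr 1; ring
      rw [h5]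
      calc (m : ℝ) = Real.exp (Real.log m) := (Real.exp_log hm0).symm
        _ ≤ _ := Real.exp_le_exp.mpr hm.le
    obtain ⟨M, hM⟩ := Filter.eventually_atTop.mp (e1.and (e2.and (Filter.eventually_ge_atTop 1)))
    refine ⟨M, fun m hm n hmn => ?_⟩
    obtain ⟨h1, h2, h3⟩ := hM m hm
    have hm0 : (0 : ℝ) < m := by exact_mod_cast h3
    have hmnR : (m : ℝ) ≤ n := by exact_mod_cast hmn.le
    have hmin : min (m : ℝ) (2 ^ (ε * n / 4)) = m := by
      apply min_eq_left
      refine h2.trans (Real.rpow_le_rpow_of_exponent_le (by norm_num) ?_)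
      have : ε * m ≤ ε * n := mul_le_mul_of_nonneg_left hmnR hε.le
      linarith
    have h4 := up c ε hε hεc hc n m (by omega) h3
    rw [hmin] at h4
    refine lt_of_le_of_lt h4 ?_
    calc 4 * ((m : ℝ) * (m : ℝ) ^ (-δ)) = (4 * (m : ℝ) ^ (-δ)) * m := by ring
      _ < η * m := mul_lt_mul_of_pos_right h1 hm0

end Pool.Agent.Results.MP_cecf76_co.PowerBounds
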